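import Pool.Agent.H317.GI.Stm

set_option autoImplicit false

/-! # Cayley-Hamilton for `SL_3` -/

namespace Pool.Agent.H401.GI

open Matrix
open Pool.Agent.H317.GR Pool.Agent.H317.GH Pool.Agent.H317.GI

theorem cube_zero {R : Type} [CommRing R] (a b c d e f g h k : R) (h1 : a + e + k = 3)
    (h2 : (e * k - f * h) + (a * k - c * g) + (a * e - b * d) = 3)
    (h3 : a * e * k - a * f * h - b * d * k + b * f * g + c * d * h - c * e * g = 1) :
    (!![a, b, c; d, e, f; g, h, k] - 1 : Matrix (Fin 3) (Fin 3) R) ^ 3 = 0 := by
  have e1 : (!![a, b, c; d, e, f; g, h, k] - 1 : Matrix (Fin 3) (Fin 3) R) =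
      !![a - 1, b, c; d, e - 1, f; g, h, k - 1] := by
    ext i j
    fin_cases i <;> fin_cases j <;> simp
  rw [e1, pow_succ, pow_two]
  ext i j
  fin_cases i <;> fin_cases j <;>
    simp [Matrix.mul_apply, Fin.sum_univ_three]
  · linear_combination (a * a + b * d + c * g) * h1 - a * h2 + h3
  · linear_combination (a * b + b * e + c * h) * h1 - b * h2
  · linear_combination (a * c + b * f + c * k) * h1 - c * h2
  · linear_combination (d * a + e * d + f * g) * h1 - d * h2
  · linear_combination (d * b + e * e + f * h) * h1 - e * h2 + h3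
  · linear_combination (d * c + e * f + f * k) * h1 - f * h2
  · linear_combination (g * a + h * d + k * g) * h1 - g * h2
  · linear_combination (g * b + h * e + k * h) * h1 - h * h2
  · linear_combination (g * c + h * f + k * k) * h1 - k * h2 + h3

theorem ch3 : S_CH3 := by
  intro R _ A h1 h2
  have h3 : A.val.det = 1 := A.2
  have h4 : (A⁻¹).val = A.val.adjugate := Matrix.SpecialLinearGroup.coe_inv A
  rw [h4, adjugate_fin_three, trace_fin_three] at h2
  rw [trace_fin_three] at h1
  rw [det_fin_three] at h3
  simp at h2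
  rw [eta_fin_three A.val]
  refine cube_zero _ _ _ _ _ _ _ _ _ h1 ?_ ?_
  · linear_combination h2
  · linear_combination h3

end Pool.Agent.H401.GI
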